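import Pool.Agent.T6.H44.NS.Div

set_option autoImplicit false

/-!
# Residue classes of exponents without small prime factors (helper44)
-/

namespace Pool.Agent.T6.H44.NS

open Finset

/-- a prime with a given index -/
noncomputable def P (i : ℕ) : ℕ := Nat.nth Nat.Prime i

theorem P_prime (i : ℕ) : (P i).Prime := Nat.prime_nth_prime i

theorem P_ge (i : ℕ) : i + 2 ≤ P i := Nat.add_two_le_nth_prime i

theorem P_inj : Function.Injective P := Nat.nth_injective Nat.infinite_setOf_prime

/-- solutions of a linear congruence -/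
theorem solve {p m : ℕ} (hp : p.Prime) (hm : 1 ≤ m) (hmp : m < p) (e : ZMod p) :
    ∃ c : ℕ, ((m * c : ℕ) : ZMod p) = e := by
  have : Fact p.Prime := ⟨hp⟩
  have hm0 : ((m : ℕ) : ZMod p) ≠ 0 := by
    rw [Ne, ZMod.natCast_eq_zero_iff]
    exact Nat.not_dvd_of_pos_of_lt hm hmp
  refine ⟨((m : ZMod p)⁻¹ * e).val, ?_⟩
  push_cast
  rw [ZMod.natCast_zmod_val]
  field_simp

/-- For every `H` there is a residue class such that for the primes `q` in it all the prime factors
of the numbers with exponent `q` are larger than `H q`. -/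
theorem classes (H : ℕ) : ∃ W b : ℕ, 1 ≤ W ∧ Nat.Coprime b W ∧ ∀ q : ℕ, q.Prime → Odd q →
    q ≡ b [MOD W] → W < q → ∀ l : ℕ, l.Prime → ((l : ℤ) ∣ (u q).re ∨ (l : ℤ) ∣ (u q).im) →
    H * q < l := by
  classical
  -- the index `2 H + 2 m` for `2 m q + 1`, and `2 H + 2 m + 1` for `2 m q - 1`
  set I : Finset ℕ := Icc (2 * H + 2) (4 * H + 1) with hI
  have hm : ∀ i ∈ I, 1 ≤ (i - 2 * H) / 2 ∧ (i - 2 * H) / 2 ≤ H := by
    intro i hi
    rw [hI, mem_Icc] at hi
    omega
  have hsol : ∀ i : ℕ, ∃ c : ℕ, i ∈ I →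
      ((2 * ((i - 2 * H) / 2) * c : ℕ) : ZMod (P i)) = if i % 2 = 0 then -1 else 1 := by
    intro i
    by_cases hi : i ∈ I
    · obtain ⟨h1, h2⟩ := hm i hi
      have h3 := P_ge i
      have h4 := (mem_Icc.1 (hI ▸ hi)).1
      obtain ⟨c, hc⟩ := solve (P_prime i) (m := 2 * ((i - 2 * H) / 2)) (by omega) (by omega)
        (if i % 2 = 0 then -1 else 1)
      exact ⟨c, fun _ => hc⟩
    · exact ⟨0, fun h => absurd h hi⟩
  choose c hc using hsol
  obtain ⟨b, hb⟩ := Nat.chineseRemainderOfFinset c P I (fun i _ => (P_prime i).ne_zero)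
    (fun i _ j _ hij => (Nat.coprime_primes (P_prime i) (P_prime j)).2 (P_inj.ne hij))
  set W : ℕ := ∏ i ∈ I, P i with hW
  have hWpos : 1 ≤ W := Nat.one_le_iff_ne_zero.2 (prod_ne_zero_iff.2 fun i _ => (P_prime i).ne_zero)
  have hbc : ∀ i ∈ I, ((2 * ((i - 2 * H) / 2) * b : ℕ) : ZMod (P i)) =
      if i % 2 = 0 then -1 else 1 := by
    intro i hi
    rw [← hc i hi]
    have := (ZMod.natCast_eq_natCast_iff _ _ _).2 (hb i hi)
    push_cast
    rw [this]
  have hne : ∀ i : ℕ, ((if i % 2 = 0 then -1 else 1 : ZMod (P i))) ≠ 0 := by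
    intro i
    have : Fact (P i).Prime := ⟨P_prime i⟩
    split_ifs
    · exact neg_ne_zero.2 one_ne_zero
    · exact one_ne_zero
  refine ⟨W, b, hWpos, ?_, ?_⟩
  · rw [hW]
    refine Nat.Coprime.prod_right fun i hi => ?_
    refine Nat.Coprime.symm ((P_prime i).coprime_iff_not_dvd.2 fun hd => ?_)
    have h1 := hbc i hi
    have h2 : ((b : ℕ) : ZMod (P i)) = 0 := (ZMod.natCast_eq_zero_iff _ _).2 hd
    push_cast at h1
    rw [h2, mul_zero] at h1
    exact hne i h1.symm
  · intro q hq hodd hqb hWq l hl hdiv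
    obtain ⟨m, hm1, hlm⟩ := factor hq hodd hl hdiv
    have hq3 : 1 ≤ q := hq.one_le
    by_cases hmH : m ≤ H
    · exfalso
      have hkey : ∀ i ∈ I, (i - 2 * H) / 2 = m → P i ∣ l → False := by
        intro i hi _ hd
        have h1 : P i = l := (Nat.prime_dvd_prime_iff_eq (P_prime i) hl).1 hd
        have h2 : P i ≤ W := Nat.le_of_dvd hWpos (dvd_prod_of_mem P hi)
        have h3 : 2 * m * q ≤ l + 1 := by omega
        have h4 : 2 * q ≤ 2 * m * q := Nat.mul_le_mul_right q (by omega)
        omega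
      have hqi : ∀ i ∈ I, ((q : ℕ) : ZMod (P i)) = (b : ZMod (P i)) := by
        intro i hi
        have : q ≡ b [MOD P i] := hqb.of_dvd (dvd_prod_of_mem P hi)
        exact (ZMod.natCast_eq_natCast_iff _ _ _).2 this
      rcases hlm with h | h
      · have hi : 2 * H + 2 * m ∈ I := by
          rw [hI, mem_Icc]
          omega
        refine hkey _ hi (by omega) ?_
        have h1 := hbc _ hi
        rw [if_pos (by omega), show (2 * H + 2 * m - 2 * H) / 2 = m by omega] at h1
        rw [← ZMod.natCast_eq_zero_iff, h]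
        push_cast at h1 ⊢
        rw [hqi _ hi, h1]
        ring
      · have hi : 2 * H + 2 * m + 1 ∈ I := by
          rw [hI, mem_Icc]
          omega
        refine hkey _ hi (by omega) ?_
        have h1 := hbc _ hi
        rw [if_neg (by omega), show (2 * H + 2 * m + 1 - 2 * H) / 2 = m by omega] at h1
        rw [← ZMod.natCast_eq_zero_iff]
        have h2 : ((l + 1 : ℕ) : ZMod (P (2 * H + 2 * m + 1))) = 1 := by
          rw [h]
          push_cast at h1 ⊢
          rw [hqi _ hi, h1]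
        push_cast at h2
        linear_combination h2
    · have h3 : 2 * m * q ≤ l + 1 := by omega
      have h4 : 2 * (H + 1) * q ≤ 2 * m * q := Nat.mul_le_mul_right q (by omega)
      have h5 : 2 * (H + 1) * q = H * q + H * q + 2 * q := by ring
      omega

end Pool.Agent.T6.H44.NS
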