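import Pool.Agent.H362R2.CM.Final
import Pool.Agent.H602R3.TupClusters
import Pool.Agent.T6.H44.NS.Cls

set_option autoImplicit false

/-!
# Clusters of exponents without small prime factors (helper44)
-/

namespace Pool.Agent.T6.H44.NS

open Finset

open Classical in
theorem clu (H m : ℕ) : ∃ C : ℕ, ∀ N₀ : ℕ, ∃ N : ℕ, N₀ ≤ N ∧
    m ≤ ((Icc N (N + C)).filter fun k => (2 * k + 1).Prime ∧ ∀ l : ℕ, l.Prime →
      ((l : ℤ) ∣ (u (2 * k + 1)).re ∨ (l : ℤ) ∣ (u (2 * k + 1)).im) →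
      H * (2 * k + 1) < l).card := by
  obtain ⟨W, b, hW, hbW, hcl⟩ := classes H
  obtain ⟨Q, hQ1, hQ⟩ := Pool.Agent.H602R3.Tup.clusters Pool.Agent.H362R2.CM.quarter (4 * m)
  obtain ⟨S, h, hS, hinj, hpos, hinf⟩ := hQ W (b : ℤ) hW
    (Nat.isCoprime_iff_coprime.2 hbW) (fun g => (g : ℤ))
  refine ⟨W * (Q * (4 * m)), fun N₀ => ?_⟩
  obtain ⟨n, hn, hn2⟩ := hinf.exists_gt (2 * N₀ + W + 2)
  -- the offsets are natural numbers below `Q * (4 * m)`
  have hh : ∀ g : Fin (4 * m), ∃ t : ℕ, (t : ℤ) = h g ∧ t < Q * (4 * m) := by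
    intro g
    obtain ⟨h1, h2⟩ := hpos g
    have h0 : 0 ≤ h g := le_trans (by positivity) h1
    obtain ⟨t, ht⟩ := Int.eq_ofNat_of_zero_le h0
    refine ⟨t, ht.symm, ?_⟩
    have hg : (g : ℤ) + 1 ≤ 4 * m := by
      have := g.2
      have h3 : (g : ℕ) + 1 ≤ 4 * m := this
      exact_mod_cast h3
    have h4 : (t : ℤ) < Q * (4 * m) := by
      have h5 : (Q : ℤ) * ((g : ℤ) + 1) ≤ Q * (4 * m) :=
        mul_le_mul_of_nonneg_left hg (by positivity)
      rw [ht] at h2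
      have h6 : (Q : ℤ) * (g : ℤ) + Q = Q * ((g : ℤ) + 1) := by ring
      have h7 : ((t : ℕ) : ℤ) = Int.ofNat t := rfl
      linarith
    exact_mod_cast h4
  choose t ht1 ht2 using hh
  set A : ℕ := W * n + b with hA
  have hAn : n ≤ A := by
    rw [hA]
    nlinarith
  have hq : ∀ g ∈ S, (A + W * t g).Prime := by
    intro g hg
    obtain ⟨_, h2⟩ := hn g hg
    have h3 : ((W : ℕ) : ℤ) * n + (b + W * h g) = ((A + W * t g : ℕ) : ℤ) := by
      rw [hA, ← ht1 g]
      push_cast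
      ring
    rw [h3] at h2
    exact Nat.prime_iff_prime_int.2 h2
  have hodd : ∀ g ∈ S, Odd (A + W * t g) := by
    intro g hg
    refine (hq g hg).odd_of_ne_two ?_
    have : 0 ≤ W * t g := Nat.zero_le _
    omega
  refine ⟨(A - 1) / 2, by omega, ?_⟩
  have hcard : m ≤ S.card := by omega
  refine hcard.trans ?_
  refine card_le_card_of_injOn (fun g => (A + W * t g - 1) / 2) ?_ ?_
  · intro g hg
    have hg' : g ∈ S := hg
    rw [mem_coe, mem_filter, mem_Icc]
    dsimp only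
    obtain ⟨j, hj⟩ := hodd g hg'
    have hj2 : (A + W * t g - 1) / 2 = j := by omega
    rw [hj2, ← hj]
    have h5 : W * t g ≤ W * (Q * (4 * m)) := Nat.mul_le_mul_left W (ht2 g).le
    refine ⟨⟨by omega, by omega⟩, hq g hg', ?_⟩
    intro l hl hd
    refine hcl _ (hq g hg') (hodd g hg') ?_ ?_ l hl hd
    · rw [hA]
      have h6 : W * n + b + W * t g = b + W * (n + t g) := by ring
      rw [h6]
      simp [Nat.ModEq]
    · have : 0 ≤ W * t g := Nat.zero_le _
      omega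
  · intro g hg g' hg' heq
    have hg1 : g ∈ S := hg
    have hg2 : g' ∈ S := hg'
    dsimp only at heq
    obtain ⟨j, hj⟩ := hodd g hg1
    obtain ⟨j', hj'⟩ := hodd g' hg2
    have h6 : W * t g = W * t g' := by omega
    have h7 : t g = t g' := Nat.eq_of_mul_eq_mul_left (by omega) h6
    apply hinj
    rw [← ht1 g, ← ht1 g', h7]

end Pool.Agent.T6.H44.NS
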