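import Pool.Agent.T6.H44.NS.Cnt

set_option autoImplicit false

/-!
# Almost all exponents; the convergent sum (helper44)
-/

namespace Pool.Agent.T6.H44.NS

open Finset Filter

theorem ex_card (x : ℕ) : (Nat.primeCounting x : ℝ) - 1 ≤ (ex x).card := by
  have h : Nat.primeCounting x ≤ (ex x).card + 1 := by
    rw [Nat.primeCounting, Nat.primeCounting', Nat.count_eq_card_filter_range]
    have h1 : (range (x + 1)).filter Nat.Prime ⊆ insert 2 ((ex x).image fun k => 2 * k + 1) := by
      intro p hp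
      rw [mem_filter, mem_range] at hp
      rw [mem_insert, mem_image]
      rcases hp.2.eq_two_or_odd' with h2 | ⟨k, hk⟩
      · exact Or.inl h2
      · refine Or.inr ⟨k, ?_, hk.symm⟩
        rw [ex, mem_filter, mem_range]
        exact ⟨by omega, hk ▸ hp.2, by omega⟩
    exact (card_le_card h1).trans ((card_insert_le _ _).trans (Nat.add_le_add_right card_image_le 1))
  have h' : ((Nat.primeCounting x : ℕ) : ℝ) ≤ ((ex x).card + 1 : ℕ) := by exact_mod_cast h
  push_cast at h'
  linarith

theorem ex_lower : ∃ x₀ : ℕ, ∀ x : ℕ, x₀ ≤ x → (x : ℝ) / (2 * Real.log x) ≤ (ex x).card := by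
  have hl : (fun y : ℝ => Real.log y) =o[atTop] fun y : ℝ => y := Real.isLittleO_log_id_atTop
  have h1 := (hl.def (c := 1 / 30) (by norm_num))
  obtain ⟨y₀, hy₀⟩ := eventually_atTop.1 h1
  refine ⟨max 100 (⌈y₀⌉₊), fun x hx => ?_⟩
  have hx100 : (100 : ℝ) ≤ x := by exact_mod_cast (le_max_left _ _).trans hx
  have hxy : y₀ ≤ x := (Nat.le_ceil _).trans (by exact_mod_cast (le_max_right _ _).trans hx)
  have hlog : 0 < Real.log x := Real.log_pos (by linarith)
  have h2 := hy₀ x hxy
  have h3 := hy₀ (x + 1) (by linarith)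
  rw [Real.norm_eq_abs, Real.norm_eq_abs, abs_of_pos hlog, abs_of_pos (by linarith)] at h2
  rw [Real.norm_eq_abs, Real.norm_eq_abs, abs_of_pos (Real.log_pos (by linarith)),
    abs_of_pos (by linarith)] at h3
  have h4 := Chebyshev.pi_ge x
  have h5 := ex_card x
  have h6 : (0.69 : ℝ) < Real.log 2 := by have := Real.log_two_gt_d9; linarith
  rw [div_le_iff₀ hlog] at h4
  rw [div_le_iff₀ (by positivity)]
  have h7 : (Nat.primeCounting x : ℝ) * Real.log x ≤ ((ex x).card + 1) * Real.log x :=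
    mul_le_mul_of_nonneg_right (by linarith) hlog.le
  have h8 : (x : ℝ) * 0.69 ≤ x * Real.log 2 := mul_le_mul_of_nonneg_left h6.le (by linarith)
  nlinarith

/-- one of the numbers `p_k` and `r_k` has a prime factor at most `y` -/
def Small (k : ℕ) (y : ℝ) : Prop := ∃ l : ℕ, l.Prime ∧ (l : ℝ) ≤ y ∧
  ((l : ℤ) ∣ (u (2 * k + 1)).re ∨ (l : ℤ) ∣ (u (2 * k + 1)).im)

open Classical in
theorem small_card : ∃ C : ℝ, 0 < C ∧ ∀ (x : ℕ) (M : ℝ), 2 ≤ x → 1 ≤ M →
    (((ex x).filter fun k => Small k (M * (2 * k + 1))).card : ℝ) ≤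
      C * M * x / (Real.log x) ^ 2 := by
  obtain ⟨C, hC, h⟩ := main
  refine ⟨C, hC, fun x M hx hM => le_trans ?_ (h x M hx hM)⟩
  have h1 : ((ex x).filter fun k : ℕ => Small k (M * (2 * k + 1))).card ≤
      ∑ k ∈ ex x, (fac k ⌊M * (2 * k + 1 : ℕ)⌋₊).card := by
    rw [card_filter]
    refine sum_le_sum fun k _ => ?_
    split_ifs with hk
    · obtain ⟨l, hl, hly, hl2⟩ := hk
      have : 0 < (fac k ⌊M * (2 * k + 1 : ℕ)⌋₊).card := by
        rw [card_pos]
        refine ⟨l, ?_⟩
        rw [fac, mem_filter, mem_Icc]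
        refine ⟨⟨hl.one_le, Nat.le_floor ?_⟩, hl, hl2⟩
        push_cast
        exact hly
      omega
    · exact Nat.zero_le _
  exact_mod_cast h1

open Classical in
theorem almost_all (ε : ℝ) (hε : 0 < ε) : ∃ δ : ℝ, 0 < δ ∧ ∃ x₀ : ℕ, ∀ x : ℕ, x₀ ≤ x →
    (((ex x).filter fun k => Small k (δ * (2 * k + 1) * Real.log (2 * k + 1))).card : ℝ) ≤
      ε * (ex x).card := by
  obtain ⟨C, hC, h⟩ := small_card
  obtain ⟨x₁, hx₁⟩ := ex_lower
  set δ := ε / (2 * C) with hδ
  have hδ0 : 0 < δ := by positivity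
  obtain ⟨y₀, hy₀⟩ := eventually_atTop.1 (Real.tendsto_log_atTop.eventually_ge_atTop (1 / δ))
  refine ⟨δ, hδ0, max (max 2 x₁) ⌈y₀⌉₊, fun x hx => ?_⟩
  have hx2 : 2 ≤ x := (le_max_left _ _).trans ((le_max_left _ _).trans hx)
  have hx1 : x₁ ≤ x := (le_max_right _ _).trans ((le_max_left _ _).trans hx)
  have hxy : y₀ ≤ x := (Nat.le_ceil _).trans (by exact_mod_cast (le_max_right _ _).trans hx)
  have hlog : 0 < Real.log x := Real.log_pos (by exact_mod_cast hx2)
  have hM : 1 ≤ δ * Real.log x := by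
    have := hy₀ x hxy
    rw [div_le_iff₀ hδ0] at this
    linarith
  have h1 := h x (δ * Real.log x) hx2 hM
  have h2 := hx₁ x hx1
  have h3 : (((ex x).filter fun k => Small k (δ * (2 * k + 1) * Real.log (2 * k + 1))).card : ℝ) ≤
      (((ex x).filter fun k => Small k (δ * Real.log x * (2 * k + 1))).card : ℝ) := by
    have : ((ex x).filter fun k : ℕ => Small k (δ * (2 * k + 1) * Real.log (2 * k + 1))) ⊆
        ((ex x).filter fun k : ℕ => Small k (δ * Real.log x * (2 * k + 1))) := by
      intro k hk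
      rw [mem_filter] at hk ⊢
      refine ⟨hk.1, ?_⟩
      obtain ⟨l, hl, hly, hl2⟩ := hk.2
      refine ⟨l, hl, hly.trans ?_, hl2⟩
      have hkx : (2 * k + 1 : ℝ) ≤ x := by
        have := hk.1
        rw [ex, mem_filter] at this
        exact_mod_cast this.2.2
      have h5 : Real.log (2 * k + 1) ≤ Real.log x := Real.log_le_log (by positivity) hkx
      calc δ * (2 * k + 1) * Real.log (2 * k + 1) ≤ δ * (2 * k + 1) * Real.log x :=
            mul_le_mul_of_nonneg_left h5 (by positivity)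
        _ = _ := by ring
    exact_mod_cast card_le_card this
  have h4 : C * (δ * Real.log x) * x / (Real.log x) ^ 2 = ε * (x / (2 * Real.log x)) := by
    rw [hδ]
    field_simp
  calc _ ≤ _ := h3
    _ ≤ _ := h1
    _ = ε * (x / (2 * Real.log x)) := h4
    _ ≤ ε * (ex x).card := mul_le_mul_of_nonneg_left h2 hε.le

open Classical in
theorem summ (M : ℝ) : Summable fun k : ℕ =>
    if (2 * k + 1).Prime ∧ Small k (M * (2 * k + 1)) then (1 : ℝ) / (2 * k + 1) else 0 := by
  obtain ⟨C, hC, h⟩ := small_card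
  set M' := max M 1 with hM'
  have hM1 : 1 ≤ M' := le_max_right _ _
  have hs : Summable fun j : ℕ => 1 / ((j : ℝ) + 1) ^ 2 := by
    have := (summable_nat_add_iff 1).2 (Real.summable_one_div_nat_pow.2 (le_refl 2))
    simpa using this
  set D := 2 * C * M' / (Real.log 2) ^ 2 with hD
  have hl2 : 0 < Real.log 2 := Real.log_pos (by norm_num)
  have hD0 : 0 < D := by positivity
  refine summable_of_sum_range_le (c := D * ∑' j : ℕ, 1 / ((j : ℝ) + 1) ^ 2) (fun k => ?_)
    (fun n => ?_)
  · split_ifs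
    · positivity
    · exact le_rfl
  · rw [← sum_filter]
    set S := (range n).filter fun k => (2 * k + 1).Prime ∧ Small k (M * (2 * k + 1)) with hS
    have hmap : ∀ k ∈ S, Nat.log 2 (2 * k + 1) ∈ range (2 * n + 1) := by
      intro k hk
      rw [hS, mem_filter, mem_range] at hk
      rw [mem_range]
      have := Nat.log_lt_self 2 (x := 2 * k + 1) (by omega)
      omega
    rw [← sum_fiberwise_of_maps_to hmap]
    have hj : ∀ j ∈ range (2 * n + 1), ∑ k ∈ S.filter (fun k => Nat.log 2 (2 * k + 1) = j),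
        (1 : ℝ) / (2 * k + 1) ≤ D * (1 / ((j : ℝ) + 1) ^ 2) := by
      intro j _
      have h1 : ∀ k ∈ S.filter (fun k => Nat.log 2 (2 * k + 1) = j),
          (1 : ℝ) / (2 * k + 1) ≤ 1 / 2 ^ j := by
        intro k hk
        rw [mem_filter] at hk
        apply one_div_le_one_div_of_le (by positivity)
        have := Nat.pow_log_le_self 2 (x := 2 * k + 1) (by omega)
        rw [hk.2] at this
        exact_mod_cast this
      refine (sum_le_card_nsmul _ _ _ h1).trans ?_
      have h2 : (S.filter (fun k => Nat.log 2 (2 * k + 1) = j)).card ≤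
          ((ex (2 ^ (j + 1))).filter fun k : ℕ => Small k (M' * (2 * k + 1))).card := by
        apply card_le_card
        intro k hk
        rw [mem_filter, hS, mem_filter] at hk
        obtain ⟨⟨_, hk1, l, hl, hly, hl2⟩, hk3⟩ := hk
        have h4 : 2 * k + 1 < 2 ^ (j + 1) := by
          rw [← hk3]
          exact Nat.lt_pow_succ_log_self (by norm_num) _
        rw [mem_filter, ex, mem_filter, mem_range]
        refine ⟨⟨by omega, hk1, h4.le⟩, l, hl, hly.trans ?_, hl2⟩
        exact mul_le_mul_of_nonneg_right (le_max_left _ _) (by positivity)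
      have h3 := h (2 ^ (j + 1)) M' (by
        have : 1 ≤ 2 ^ j := Nat.one_le_two_pow
        rw [pow_succ]
        omega) hM1
      have h5 : ((S.filter (fun k => Nat.log 2 (2 * k + 1) = j)).card : ℝ) ≤
          C * M' * (2 ^ (j + 1) : ℕ) / (Real.log (2 ^ (j + 1) : ℕ)) ^ 2 :=
        le_trans (by exact_mod_cast h2) h3
      rw [nsmul_eq_mul]
      have h6 : Real.log ((2 ^ (j + 1) : ℕ) : ℝ) = (j + 1) * Real.log 2 := by
        push_cast
        rw [Real.log_pow]
        push_cast
        ring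
      rw [h6] at h5
      calc _ ≤ C * M' * (2 ^ (j + 1) : ℕ) / ((j + 1) * Real.log 2) ^ 2 * (1 / 2 ^ j) :=
            mul_le_mul_of_nonneg_right h5 (by positivity)
        _ = D * (1 / ((j : ℝ) + 1) ^ 2) := by
          rw [hD]
          push_cast
          field_simp
          ring
    refine (sum_le_sum hj).trans ?_
    rw [← mul_sum]
    exact mul_le_mul_of_nonneg_left (hs.sum_le_tsum _ (fun j _ => by positivity)) hD0.le

end Pool.Agent.T6.H44.NS
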