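import Pool.Agent.T6.H44.NS.Sol

set_option autoImplicit false

/-!
# The factors `2 q ± 1` (helper44)
-/

namespace Pool.Agent.T6.H44.NS

/-- if `q = 3` modulo `4` and `2 q + 1` is a prime then it divides `p` -/
theorem sg_plus {q : ℕ} (hq : q % 4 = 3) (hl : (2 * q + 1).Prime) :
    ((2 * q + 1 : ℕ) : ℤ) ∣ (u q).re := by
  have hodd : Odd q := Nat.odd_iff.2 (by omega)
  set l := 2 * q + 1 with hl0
  have : Fact l.Prime := ⟨hl⟩
  have h2 : l ≠ 2 := by omega
  obtain ⟨s, hs⟩ := (ZMod.exists_sq_eq_two_iff h2).2 (Or.inr (by omega))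
  have hs' : s * s = ((2 : ℤ) : ZMod l) := by rw [← hs]; norm_num
  have hs'' : (-s) * (-s) = ((2 : ℤ) : ZMod l) := by rw [neg_mul_neg]; exact hs'
  have h3 := phi_u s hs' q
  have h4 := phi_u (-s) hs'' q
  have hab : (1 + s) ^ q * (1 + -s) ^ q = -1 := by
    rw [← mul_pow, ← sub_eq_add_neg, mul_conj hs', hodd.neg_one_pow]
  have ha : (1 + s) ≠ 0 := by
    intro h
    have := mul_conj (K := ZMod l) hs'
    rw [h, zero_mul] at this
    exact one_ne_zero (α := ZMod l) (by linear_combination this)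
  have h5 : (1 + s) ^ q * (1 + s) ^ q = 1 := by
    rw [← pow_add, show q + q = l - 1 by omega]
    exact ZMod.pow_card_sub_one_eq_one ha
  have h6 : (1 + s) ^ q * (2 * ((u q).re : ZMod l)) = 0 := by
    have h7 : 2 * ((u q).re : ZMod l) = (1 + s) ^ q + (1 + -s) ^ q := by rw [h3, h4]; ring
    rw [h7, mul_add, h5, hab]
    ring
  have h8 : ((u q).re : ZMod l) = 0 := by
    rcases mul_eq_zero.1 h6 with h | h
    · exact absurd h (pow_ne_zero _ ha)
    · rcases mul_eq_zero.1 h with h | h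
      · exact absurd h (two_ne (K := ZMod l) hl h2)
      · exact h
  exact (ZMod.intCast_zmod_eq_zero_iff_dvd _ _).1 h8

/-- if `q = 3` modulo `4` and `2 q - 1` is a prime then it divides `r` -/
theorem sg_minus {q : ℕ} (hq : q % 4 = 3) (hl : (2 * q - 1).Prime) :
    ((2 * q - 1 : ℕ) : ℤ) ∣ (u q).im := by
  have hodd : Odd q := Nat.odd_iff.2 (by omega)
  obtain ⟨l, hl0⟩ : ∃ l : ℕ, l = 2 * q - 1 := ⟨_, rfl⟩
  rw [← hl0] at hl ⊢
  have : Fact l.Prime := ⟨hl⟩
  have h2 : l ≠ 2 := by omega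
  have hnsq : ¬ IsSquare (2 : ZMod l) := by
    rw [ZMod.exists_sq_eq_two_iff h2]
    omega
  obtain ⟨s, hs⟩ : ∃ s : AlgebraicClosure (ZMod l), s * s = ((2 : ℤ) : AlgebraicClosure (ZMod l)) := by
    obtain ⟨s, hs⟩ := IsAlgClosed.exists_pow_nat_eq ((2 : ℤ) : AlgebraicClosure (ZMod l)) (n := 2)
      (by norm_num)
    exact ⟨s, by rw [← hs, sq]⟩
  have hchar : CharP (AlgebraicClosure (ZMod l)) l := inferInstance
  have hs'' : (-s) * (-s) = ((2 : ℤ) : AlgebraicClosure (ZMod l)) := by rw [neg_mul_neg]; exact hs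
  have hs2 : s * s = 2 := by rw [hs]; norm_num
  have h2K := two_ne (K := AlgebraicClosure (ZMod l)) hl h2
  have hs0 : s ≠ 0 := by
    rintro rfl
    exact h2K (by rw [← hs2]; ring)
  have h3 := phi_u s hs q
  have h4 := phi_u (-s) hs'' q
  have hab : (1 + s) ^ q * (1 + -s) ^ q = -1 := by
    rw [← mul_pow, ← sub_eq_add_neg, mul_conj hs, hodd.neg_one_pow]
  have ha : (1 + s) ≠ 0 := by
    intro h
    have := mul_conj (K := AlgebraicClosure (ZMod l)) hs
    rw [h, zero_mul] at this
    exact one_ne_zero (α := AlgebraicClosure (ZMod l)) (by linear_combination this)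
  have hfr : s ^ l = -s := by
    rcases frob hl hs with h | h
    · exfalso
      apply hnsq
      have h20 : (2 : ZMod l) ≠ 0 := two_ne (K := ZMod l) hl h2
      rw [ZMod.euler_criterion l h20]
      have h5 : s ^ (l - 1) = 1 := by
        have h6 : s ^ (l - 1) * s = 1 * s := by
          rw [← pow_succ, Nat.sub_add_cancel hl.one_le, h, one_mul]
        exact mul_right_cancel₀ hs0 h6
      have h7 : (2 : AlgebraicClosure (ZMod l)) ^ (l / 2) = 1 := by
        rw [← hs2, ← sq, ← pow_mul, show 2 * (l / 2) = l - 1 by omega, h5]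
      have h8 : algebraMap (ZMod l) (AlgebraicClosure (ZMod l)) (2 ^ (l / 2)) =
          algebraMap (ZMod l) (AlgebraicClosure (ZMod l)) 1 := by
        rw [map_pow, map_one, map_ofNat]
        exact h7
      exact (algebraMap (ZMod l) (AlgebraicClosure (ZMod l))).injective h8
    · exact h
  have h5 : (1 + s) ^ q * (1 + s) ^ q = -1 := by
    rw [← pow_add, show q + q = l + 1 by omega, pow_succ, one_add_pow hl, hfr,
      ← mul_conj (K := AlgebraicClosure (ZMod l)) hs]
    ring
  have h6 : (1 + s) ^ q * (2 * (((u q).im : AlgebraicClosure (ZMod l)) * s)) = 0 := by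
    have h7 : 2 * (((u q).im : AlgebraicClosure (ZMod l)) * s) = (1 + s) ^ q - (1 + -s) ^ q := by
      rw [h3, h4]; ring
    rw [h7, mul_sub, h5, hab]
    ring
  have h8 : ((u q).im : AlgebraicClosure (ZMod l)) = 0 := by
    rcases mul_eq_zero.1 h6 with h | h
    · exact absurd h (pow_ne_zero _ ha)
    · rcases mul_eq_zero.1 h with h | h
      · exact absurd h h2K
      · rcases mul_eq_zero.1 h with h | h
        · exact h
        · exact absurd h hs0
  exact (CharP.intCast_eq_zero_iff (AlgebraicClosure (ZMod l)) l _).1 h8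

end Pool.Agent.T6.H44.NS
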