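import Mathlib

set_option autoImplicit false

/-!
# Prime factors of the solutions of `p² - 2 r² = -1` (helper44)
-/

namespace Pool.Agent.T6.H44.NS

/-- `(1 + √2)^n` -/
def u (n : ℕ) : ℤ√2 := (⟨1, 1⟩ : ℤ√2) ^ n

/-- the ring homomorphism with `√2 ↦ s` -/
noncomputable def phi {K : Type} [Field K] (s : K) (hs : s * s = ((2 : ℤ) : K)) : ℤ√2 →+* K :=
  Zsqrtd.lift ⟨s, hs⟩

theorem phi_apply {K : Type} [Field K] (s : K) (hs : s * s = ((2 : ℤ) : K)) (z : ℤ√2) :
    phi s hs z = (z.re : K) + (z.im : K) * s := by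
  simp [phi, Zsqrtd.lift]

theorem phi_u {K : Type} [Field K] (s : K) (hs : s * s = ((2 : ℤ) : K)) (n : ℕ) :
    (1 + s) ^ n = ((u n).re : K) + ((u n).im : K) * s := by
  rw [← phi_apply s hs, u, map_pow, phi_apply]
  simp

theorem norm_u (n : ℕ) (hn : Odd n) : (u n).re ^ 2 - 2 * (u n).im ^ 2 = -1 := by
  have h : Zsqrtd.norm (u n) = -1 := by
    have h1 : Zsqrtd.norm (u n) = (Zsqrtd.norm (⟨1, 1⟩ : ℤ√2)) ^ n := by
      rw [u]
      exact map_pow (Zsqrtd.normMonoidHom (d := 2)) _ n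
    rw [h1]
    have h2 : Zsqrtd.norm (⟨1, 1⟩ : ℤ√2) = -1 := by
      simp [Zsqrtd.norm_def]
    rw [h2, hn.neg_one_pow]
  rw [Zsqrtd.norm_def] at h
  linarith

theorem ne_two {n : ℕ} (hn : Odd n) {l : ℕ} (h : (l : ℤ) ∣ (u n).re ∨ (l : ℤ) ∣ (u n).im) : l ≠ 2 := by
  rintro rfl
  have h1 := norm_u n hn
  set a := (u n).re
  set b := (u n).im
  rcases h with ⟨t, ht⟩ | ⟨t, ht⟩
  · push_cast at ht
    rw [ht] at h1
    have : 2 * (2 * t ^ 2 - b ^ 2) = -1 := by linarith
    omega
  · push_cast at ht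
    rw [ht] at h1
    rcases Int.even_or_odd' a with ⟨j, hj | hj⟩
    · rw [hj] at h1
      have : 2 * (2 * j ^ 2 - 4 * t ^ 2) = -1 := by linarith
      omega
    · rw [hj] at h1
      have : 2 * (2 * j ^ 2 + 2 * j - 4 * t ^ 2 + 1) = 0 := by linarith
      have h3 : 2 * j ^ 2 + 2 * j - 4 * t ^ 2 + 1 = 0 := by linarith
      have h4 : 2 * (j ^ 2 + j - 2 * t ^ 2) = -1 := by linarith
      omega

section field

variable {K : Type} [Field K] {l : ℕ} [hc : CharP K l] {s : K}

theorem frob (hl : l.Prime) (hs : s * s = ((2 : ℤ) : K)) : s ^ l = s ∨ s ^ l = -s := by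
  have : Fact l.Prime := ⟨hl⟩
  have h1 : (s ^ l) * (s ^ l) = s * s := by
    rw [← mul_pow, hs]
    push_cast
    have : ((2 : ℕ) : K) ^ l = ((2 : ℕ) : K) := by
      rw [← Nat.cast_pow, CharP.cast_eq_iff_mod_eq K l]
      exact (ZMod.natCast_eq_natCast_iff' _ _ _).1 (by push_cast; exact ZMod.pow_card _)
    exact_mod_cast this
  have h2 : (s ^ l - s) * (s ^ l + s) = 0 := by linear_combination h1
  rcases mul_eq_zero.1 h2 with h | h
  · left; linear_combination h
  · right; linear_combination h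

theorem one_add_pow (hl : l.Prime) : (1 + s) ^ l = 1 + s ^ l := by
  have : Fact l.Prime := ⟨hl⟩
  rw [add_pow_char (1 : K) s, one_pow]

theorem mul_conj (hs : s * s = ((2 : ℤ) : K)) : (1 + s) * (1 - s) = -1 := by
  push_cast at hs
  linear_combination -hs

theorem two_ne (hl : l.Prime) (h2 : l ≠ 2) : (2 : K) ≠ 0 := by
  intro h
  have h3 : ((2 : ℕ) : K) = 0 := by exact_mod_cast h
  rw [CharP.cast_eq_zero_iff K l] at h3
  exact h2 ((Nat.prime_dvd_prime_iff_eq hl Nat.prime_two).1 h3)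

/-- the `(l - 1)`-th or the `(l + 1)`-th power of `± α²` is one -/
theorem pow_eq (hl : l.Prime) (h2 : l ≠ 2) (hs : s * s = ((2 : ℤ) : K)) {g : K}
    (hg : g = (1 + s) ^ 2 ∨ g = -(1 + s) ^ 2) : g ^ (l - 1) = 1 ∨ g ^ (l + 1) = 1 := by
  have hodd : Odd l := hl.odd_of_ne_two h2
  have hm : Even (l - 1) := by
    obtain ⟨t, ht⟩ := hodd
    exact ⟨t, by omega⟩
  have hp : Even (l + 1) := by
    obtain ⟨t, ht⟩ := hodd
    exact ⟨t + 1, by omega⟩
  have ha : (1 + s) ≠ 0 := by
    intro h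
    have := mul_conj (K := K) hs
    rw [h, zero_mul] at this
    exact one_ne_zero (α := K) (by linear_combination this)
  rcases frob hl hs with h | h
  · left
    have h1 : (1 + s) ^ (l - 1) = 1 := by
      have h3 : (1 + s) ^ (l - 1) * (1 + s) = 1 * (1 + s) := by
        rw [← pow_succ, Nat.sub_add_cancel hl.one_le, one_add_pow hl, h, one_mul]
      exact mul_right_cancel₀ ha h3
    rcases hg with rfl | rfl
    · rw [← pow_mul, mul_comm, pow_mul, h1, one_pow]
    · rw [neg_pow, hm.neg_one_pow, one_mul, ← pow_mul, mul_comm, pow_mul, h1, one_pow]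
  · right
    have h1 : (1 + s) ^ (l + 1) = -1 := by
      rw [pow_succ, one_add_pow hl, h, ← mul_conj (K := K) hs]
      ring
    rcases hg with rfl | rfl
    · rw [← pow_mul, mul_comm, pow_mul, h1]
      norm_num
    · rw [neg_pow, hp.neg_one_pow, one_mul, ← pow_mul, mul_comm, pow_mul, h1]
      norm_num

theorem order (hl : l.Prime) (h2 : l ≠ 2) (hs : s * s = ((2 : ℤ) : K)) {q : ℕ} (hq : q.Prime)
    (hodd : Odd q) (h : ((u q).re : K) = 0 ∨ ((u q).im : K) = 0) : q ∣ l - 1 ∨ q ∣ l + 1 := by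
  have h3 := phi_u s hs q
  have hs' : (-s) * (-s) = ((2 : ℤ) : K) := by rw [neg_mul_neg]; exact hs
  have h4 := phi_u (-s) hs' q
  have hab : (1 + s) ^ q * (1 + -s) ^ q = -1 := by
    rw [← mul_pow, ← sub_eq_add_neg, mul_conj hs, hodd.neg_one_pow]
  have h2K := two_ne (K := K) hl h2
  have hs2 : s * s = 2 := by rw [hs]; norm_num
  have ha : (1 + s) ≠ 0 := by
    intro h
    have := mul_conj (K := K) hs
    rw [h, zero_mul] at this
    exact one_ne_zero (α := K) (by linear_combination this)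
  have key : ∃ g : K, (g = (1 + s) ^ 2 ∨ g = -(1 + s) ^ 2) ∧ g ^ q = 1 ∧ g ≠ 1 := by
    rcases h with h | h
    · refine ⟨(1 + s) ^ 2, Or.inl rfl, ?_, ?_⟩
      · rw [← pow_mul, mul_comm, pow_mul]
        have h5 : (1 + -s) ^ q = -(1 + s) ^ q := by
          rw [h3, h4, h]; ring
        rw [h5] at hab
        linear_combination -hab
      · intro h5
        have h6 : 2 * (1 + s) = 0 := by linear_combination h5 - hs2
        rcases mul_eq_zero.1 h6 with h7 | h7
        · exact h2K h7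
        · exact ha h7
    · refine ⟨-(1 + s) ^ 2, Or.inr rfl, ?_, ?_⟩
      · rw [neg_pow, hodd.neg_one_pow, ← pow_mul, mul_comm 2 q, pow_mul]
        have h5 : (1 + -s) ^ q = (1 + s) ^ q := by
          rw [h3, h4, h]; ring
        rw [h5] at hab
        linear_combination -hab
      · intro h5
        have h6 : 2 * (2 + s) = 0 := by linear_combination -h5 - hs2
        rcases mul_eq_zero.1 h6 with h7 | h7
        · exact h2K h7
        · have h8 : s = -2 := by linear_combination h7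
          rw [h8] at hs2
          exact h2K (by linear_combination hs2)
  obtain ⟨g, hg, hgq, hg1⟩ := key
  have hord : orderOf g = q := by
    have : Fact q.Prime := ⟨hq⟩
    exact orderOf_eq_prime hgq hg1
  rcases pow_eq hl h2 hs hg with h5 | h5
  · left; rw [← hord]; exact orderOf_dvd_of_pow_eq_one h5
  · right; rw [← hord]; exact orderOf_dvd_of_pow_eq_one h5

end field

/-- a prime factor of `p_k` or of `r_k`, where `q = 2 k + 1` is a prime, is odd and `± 1` modulo
`q` -/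
theorem factor {q l : ℕ} (hq : q.Prime) (hodd : Odd q) (hl : l.Prime)
    (h : (l : ℤ) ∣ (u q).re ∨ (l : ℤ) ∣ (u q).im) :
    ∃ m : ℕ, 1 ≤ m ∧ (l = 2 * m * q + 1 ∨ l + 1 = 2 * m * q) := by
  have h2 := ne_two hodd h
  have : Fact l.Prime := ⟨hl⟩
  obtain ⟨s, hs⟩ : ∃ s : AlgebraicClosure (ZMod l), s * s = ((2 : ℤ) : AlgebraicClosure (ZMod l)) := by
    obtain ⟨s, hs⟩ := IsAlgClosed.exists_pow_nat_eq ((2 : ℤ) : AlgebraicClosure (ZMod l)) (n := 2)
      (by norm_num)
    exact ⟨s, by rw [← hs, sq]⟩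
  have : CharP (AlgebraicClosure (ZMod l)) l := inferInstance
  have h3 : ((u q).re : AlgebraicClosure (ZMod l)) = 0 ∨
      ((u q).im : AlgebraicClosure (ZMod l)) = 0 := by
    rcases h with h | h
    · left; exact (CharP.intCast_eq_zero_iff (AlgebraicClosure (ZMod l)) l _).2 h
    · right; exact (CharP.intCast_eq_zero_iff (AlgebraicClosure (ZMod l)) l _).2 h
  have h4 := order hl h2 hs hq hodd h3
  have hlo : Odd l := hl.odd_of_ne_two h2
  obtain ⟨t, ht⟩ := hlo
  have hcop : Nat.Coprime q 2 := (Nat.coprime_primes hq Nat.prime_two).2 (by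
    rintro rfl
    exact absurd hodd (by decide))
  have hl2 := hl.two_le
  rcases h4 with ⟨j, hj⟩ | ⟨j, hj⟩
  · have h5 : 2 ∣ q * j := ⟨t, by omega⟩
    obtain ⟨m, hm⟩ := (hcop.symm.dvd_of_dvd_mul_left h5)
    refine ⟨m, ?_, Or.inl ?_⟩
    · rcases Nat.eq_zero_or_pos m with h0 | h0
      · rw [hm, h0] at hj
        omega
      · exact h0
    · rw [hm] at hj
      have : q * (2 * m) = 2 * m * q := by ring
      omega
  · have h5 : 2 ∣ q * j := ⟨t + 1, by omega⟩
    obtain ⟨m, hm⟩ := (hcop.symm.dvd_of_dvd_mul_left h5)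
    refine ⟨m, ?_, Or.inr ?_⟩
    · rcases Nat.eq_zero_or_pos m with h0 | h0
      · rw [hm, h0] at hj
        omega
      · exact h0
    · rw [hm] at hj
      have : q * (2 * m) = 2 * m * q := by ring
      omega

end Pool.Agent.T6.H44.NS
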