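import Pool.Agent.Erdos456.Iface
import Pool.Agent.Erdos456.Smooth2
import Pool.Agent.T6.H44.NS.Div

set_option autoImplicit false

/-!
# Counting the prime exponents with small prime factors (helper44)
-/

namespace Pool.Agent.T6.H44.NS

open Finset
open Pool.Agent.Erdos456 (GG GG_nonneg GG_mul_le)

theorem sum_GG : ∃ C : ℝ, 0 < C ∧ ∀ N : ℕ, ∑ m ∈ Icc 1 N, GG m ^ 2 ≤ C * N := by
  obtain ⟨C, hC, h⟩ := Pool.Agent.Erdos456.sum_GG_sq_le
  refine ⟨C, hC, fun N => ?_⟩
  have h1 := h N (by positivity)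
  have h2 : ENNReal.ofReal (∑ m ∈ Icc 1 N, GG m ^ 2) ≤ ENNReal.ofReal (C * N) := by
    rw [ENNReal.ofReal_sum_of_nonneg (fun m _ => by positivity)]
    refine le_trans ?_ h1
    refine le_trans (le_of_eq ?_) (ENNReal.sum_le_tsum (Icc 1 N))
    refine sum_congr rfl fun m hm => ?_
    rw [mem_Icc] at hm
    rw [if_pos ⟨hm.1, by exact_mod_cast hm.2⟩]
  exact (ENNReal.ofReal_le_ofReal_iff (by positivity)).1 h2

/-- the exponents up to `x` -/
def ex (x : ℕ) : Finset ℕ := (range (x + 1)).filter fun k => (2 * k + 1).Prime ∧ 2 * k + 1 ≤ x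

theorem GG_two_mul (m : ℕ) : GG (2 * m) ≤ 2 * GG m := by
  refine (GG_mul_le 2 m).trans ?_
  have : GG 2 = 2 := by
    simp [GG]
  rw [this]

theorem cnt : ∃ C : ℝ, 0 < C ∧ ∀ x m : ℕ, 2 ≤ x → 1 ≤ m →
    (((ex x).filter fun k => (2 * m * (2 * k + 1) + 1).Prime).card : ℝ) ≤
      C * GG m ^ 2 * x / (Real.log x) ^ 2 ∧
    (((ex x).filter fun k => (2 * m * (2 * k + 1) - 1).Prime).card : ℝ) ≤
      C * GG m ^ 2 * x / (Real.log x) ^ 2 := by
  obtain ⟨C, hC, h⟩ := Pool.Agent.Erdos456.sieve_two'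
  refine ⟨4 * C, by positivity, fun x m hx hm => ?_⟩
  have hG : GG (2 * m) ^ 2 ≤ 4 * GG m ^ 2 := by
    have h1 := GG_two_mul m
    have h2 := GG_nonneg (2 * m)
    nlinarith [GG_nonneg m]
  have hb : C * GG (2 * m) ^ 2 * x / (Real.log x) ^ 2 ≤
      4 * C * GG m ^ 2 * x / (Real.log x) ^ 2 := by
    have : C * GG (2 * m) ^ 2 * x ≤ 4 * C * GG m ^ 2 * x := by
      have h3 : C * GG (2 * m) ^ 2 ≤ C * (4 * GG m ^ 2) := mul_le_mul_of_nonneg_left hG hC.le
      have h4 := mul_le_mul_of_nonneg_right h3 (Nat.cast_nonneg (α := ℝ) x)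
      linarith
    exact div_le_div_of_nonneg_right this (by positivity)
  constructor
  · have h1 := h 1 0 (2 * m) 1 x (by norm_num) (by omega) (by simp) (by simp) (by omega) hx
    refine le_trans ?_ (le_trans h1 ?_)
    · have : ((ex x).filter fun k => (2 * m * (2 * k + 1) + 1).Prime).card ≤
          ((Icc 1 x).filter fun n => (1 * n + 0).Prime ∧ (2 * m * n + 1).Prime).card := by
        refine card_le_card_of_injOn (fun k => 2 * k + 1) ?_ ?_
        · intro k hk
          rw [mem_coe, mem_filter, ex, mem_filter] at hk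
          rw [mem_coe, mem_filter, mem_Icc]
          dsimp only
          obtain ⟨⟨_, hk1, hk2⟩, hk3⟩ := hk
          exact ⟨⟨by omega, hk2⟩, by simpa using hk1, hk3⟩
        · intro a _ b _ hab
          simp only at hab
          omega
      exact_mod_cast this
    · have h5 : (1 * (2 * m) * (((1 * 1 : ℕ) : ℤ) - ((2 * m * 0 : ℕ) : ℤ)).natAbs) = 2 * m := by
        simp
      rw [h5]
      exact hb
  · have h1 := h 1 1 (2 * m) (2 * m - 1) x (by norm_num) (by omega) (by simp)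
      (by
        have h6 : (2 * m).Coprime (2 * m - 1) := by
          have : 2 * m = (2 * m - 1) + 1 := by omega
          rw [this]
          simp
        exact h6) (by omega) hx
    refine le_trans ?_ (le_trans h1 ?_)
    · have : ((ex x).filter fun k => (2 * m * (2 * k + 1) - 1).Prime).card ≤
          ((Icc 1 x).filter fun n => (1 * n + 1).Prime ∧ (2 * m * n + (2 * m - 1)).Prime).card := by
        refine card_le_card_of_injOn (fun k => 2 * k) ?_ ?_
        · intro k hk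
          rw [mem_coe, mem_filter, ex, mem_filter] at hk
          rw [mem_coe, mem_filter, mem_Icc]
          dsimp only
          obtain ⟨⟨_, hk1, hk2⟩, hk3⟩ := hk
          have hk0 : 1 ≤ k := by
            rcases Nat.eq_zero_or_pos k with h0 | h0
            · rw [h0] at hk1
              norm_num at hk1
            · exact h0
          refine ⟨⟨by omega, by omega⟩, by simpa using hk1, ?_⟩
          have h7 : 2 * m * (2 * k) + (2 * m - 1) = 2 * m * (2 * k + 1) - 1 := by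
            have : 2 * m * (2 * k + 1) = 2 * m * (2 * k) + 2 * m := by ring
            omega
          rw [h7]
          exact hk3
        · intro a _ b _ hab
          simp only at hab
          omega
      exact_mod_cast this
    · have h5 : (1 * (2 * m) * (((1 * (2 * m - 1) : ℕ) : ℤ) - ((2 * m * 1 : ℕ) : ℤ)).natAbs) =
          2 * m := by
        have : (((1 * (2 * m - 1) : ℕ) : ℤ) - ((2 * m * 1 : ℕ) : ℤ)).natAbs = 1 := by omega
        rw [this]
        ring
      rw [h5]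
      exact hb

/-- the prime factors of `p_k` and `r_k` up to `z` -/
def fac (k z : ℕ) : Finset ℕ := (Icc 1 z).filter fun l => l.Prime ∧
  ((l : ℤ) ∣ (u (2 * k + 1)).re ∨ (l : ℤ) ∣ (u (2 * k + 1)).im)

open Classical in
theorem fac_card {x k : ℕ} {M : ℝ} (hM : 1 ≤ M) (hk : k ∈ ex x) :
    (fac k ⌊M * (2 * k + 1 : ℕ)⌋₊).card ≤ ∑ m ∈ Icc 1 ⌊M⌋₊,
      ((if (2 * m * (2 * k + 1) + 1).Prime then 1 else 0) +
        if (2 * m * (2 * k + 1) - 1).Prime then 1 else 0) := by
  rw [ex, mem_filter] at hk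
  obtain ⟨_, hk1, hk2⟩ := hk
  set q := 2 * k + 1 with hq
  have hodd : Odd q := ⟨k, rfl⟩
  have hq3 : 3 ≤ q := by
    have := hk1.two_le
    omega
  rw [sum_add_distrib, ← card_filter, ← card_filter]
  have h1 : fac k ⌊M * (q : ℕ)⌋₊ ⊆
      (((Icc 1 ⌊M⌋₊).filter fun m => (2 * m * q + 1).Prime).image fun m => 2 * m * q + 1) ∪
        (((Icc 1 ⌊M⌋₊).filter fun m => (2 * m * q - 1).Prime).image fun m => 2 * m * q - 1) := by
    intro l hl
    rw [fac, mem_filter, mem_Icc] at hl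
    obtain ⟨⟨_, hl2⟩, hl3, hl4⟩ := hl
    have hl5 : (l : ℝ) ≤ M * q := by
      exact (Nat.le_floor_iff (by positivity)).1 hl2
    obtain ⟨m, hm, hlm⟩ := factor hk1 hodd hl3 hl4
    have hmM : m ≤ ⌊M⌋₊ := by
      apply Nat.le_floor
      have h6 : ((2 * m * q : ℕ) : ℝ) ≤ l + 1 := by
        have : 2 * m * q ≤ l + 1 := by omega
        exact_mod_cast this
      push_cast at h6
      have h7 : (3 : ℝ) ≤ q := by exact_mod_cast hq3
      by_contra hcon
      push Not at hcon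
      have h8 : M * q < m * q := mul_lt_mul_of_pos_right hcon (by linarith)
      have h9 : (1 : ℝ) * 3 ≤ m * q := by
        have : (1 : ℝ) ≤ m := by exact_mod_cast hm
        exact mul_le_mul this h7 (by norm_num) (by positivity)
      nlinarith
    rw [mem_union, mem_image, mem_image]
    rcases hlm with h | h
    · left
      refine ⟨m, ?_, h.symm⟩
      rw [mem_filter, mem_Icc]
      exact ⟨⟨hm, hmM⟩, h ▸ hl3⟩
    · right
      have h' : 2 * m * q - 1 = l := by omega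
      refine ⟨m, ?_, h'⟩
      rw [mem_filter, mem_Icc]
      exact ⟨⟨hm, hmM⟩, h'.symm ▸ hl3⟩
  refine (card_le_card h1).trans ((card_union_le _ _).trans ?_)
  exact Nat.add_le_add card_image_le card_image_le

/-- the number of the pairs of an exponent `2 k + 1 ≤ x` and a prime factor `≤ M (2 k + 1)` -/
theorem main : ∃ C : ℝ, 0 < C ∧ ∀ (x : ℕ) (M : ℝ), 2 ≤ x → 1 ≤ M →
    ((∑ k ∈ ex x, (fac k ⌊M * (2 * k + 1 : ℕ)⌋₊).card : ℕ) : ℝ) ≤
      C * M * x / (Real.log x) ^ 2 := by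
  classical
  obtain ⟨C1, hC1, h1⟩ := sum_GG
  obtain ⟨C2, hC2, h2⟩ := cnt
  refine ⟨2 * C2 * C1, by positivity, fun x M hx hM => ?_⟩
  have hlog : 0 < Real.log x := Real.log_pos (by exact_mod_cast hx)
  have h3 : ∑ k ∈ ex x, (fac k ⌊M * (2 * k + 1 : ℕ)⌋₊).card ≤ ∑ m ∈ Icc 1 ⌊M⌋₊,
      (((ex x).filter fun k => (2 * m * (2 * k + 1) + 1).Prime).card +
        ((ex x).filter fun k => (2 * m * (2 * k + 1) - 1).Prime).card) := by
    refine (sum_le_sum fun k hk => fac_card hM hk).trans ?_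
    rw [sum_comm]
    refine sum_le_sum fun m _ => ?_
    rw [sum_add_distrib, card_filter, card_filter]
  have h4 : ((∑ k ∈ ex x, (fac k ⌊M * (2 * k + 1 : ℕ)⌋₊).card : ℕ) : ℝ) ≤
      ∑ m ∈ Icc 1 ⌊M⌋₊, (2 * (C2 * GG m ^ 2 * x / (Real.log x) ^ 2)) := by
    refine le_trans (Nat.cast_le.2 h3) ?_
    push_cast
    refine sum_le_sum fun m hm => ?_
    have := h2 x m hx (mem_Icc.1 hm).1
    linarith [this.1, this.2]
  refine h4.trans ?_
  have h5 : ∑ m ∈ Icc 1 ⌊M⌋₊, (2 * (C2 * GG m ^ 2 * x / (Real.log x) ^ 2)) =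
      2 * C2 * x / (Real.log x) ^ 2 * ∑ m ∈ Icc 1 ⌊M⌋₊, GG m ^ 2 := by
    rw [mul_sum]
    refine sum_congr rfl fun m _ => by ring
  rw [h5]
  have h6 : ∑ m ∈ Icc 1 ⌊M⌋₊, GG m ^ 2 ≤ C1 * M :=
    (h1 _).trans (mul_le_mul_of_nonneg_left (Nat.floor_le (by linarith)) hC1.le)
  calc 2 * C2 * x / (Real.log x) ^ 2 * ∑ m ∈ Icc 1 ⌊M⌋₊, GG m ^ 2
      ≤ 2 * C2 * x / (Real.log x) ^ 2 * (C1 * M) :=
        mul_le_mul_of_nonneg_left h6 (by positivity)
    _ = 2 * C2 * C1 * M * x / (Real.log x) ^ 2 := by ring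

end Pool.Agent.T6.H44.NS
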