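import Pool.Agent.T6.H44.NS.Div

set_option autoImplicit false

/-!
# The solutions of `p² - 2 r² = -1` (helper44)
-/

namespace Pool.Agent.T6.H44.NS

theorem u_succ (n : ℕ) : (u (n + 2)).re = 3 * (u n).re + 4 * (u n).im ∧
    (u (n + 2)).im = 2 * (u n).re + 3 * (u n).im := by
  have h : u (n + 2) = u n * ⟨3, 2⟩ := by
    rw [u, u, pow_add]
    congr 1
  rw [h]
  simp only [Zsqrtd.re_mul, Zsqrtd.im_mul]
  constructor <;> ring

theorem u_one : (u 1).re = 1 ∧ (u 1).im = 1 := by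
  simp [u]

theorem u_pos (k : ℕ) : 0 < (u (2 * k + 1)).re ∧ 0 < (u (2 * k + 1)).im := by
  induction k with
  | zero => simp [u_one]
  | succ k ih =>
    have h := u_succ (2 * k + 1)
    rw [show 2 * (k + 1) + 1 = 2 * k + 1 + 2 by ring, h.1, h.2]
    constructor <;> linarith [ih.1, ih.2]

theorem descent (n : ℕ) : ∀ p r : ℤ, 0 < p → 0 < r → r ≤ n → p ^ 2 - 2 * r ^ 2 = -1 →
    ∃ k : ℕ, p = (u (2 * k + 1)).re ∧ r = (u (2 * k + 1)).im := by
  induction n with
  | zero => intro p r _ hr hn _; push_cast at hn; omega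
  | succ n ih =>
    intro p r hp hr hn h
    push_cast at hn
    rcases eq_or_ne r 1 with h1 | h1
    · refine ⟨0, ?_, ?_⟩
      · rw [h1] at h
        rw [show 2 * 0 + 1 = 1 by norm_num, u_one.1]
        nlinarith
      · rw [show 2 * 0 + 1 = 1 by norm_num, u_one.2, h1]
    rcases eq_or_ne r 2 with h2 | h2
    · exfalso
      rw [h2] at h
      have h3 : p ^ 2 = 7 := by linarith
      have h4 : p < 3 := by nlinarith
      interval_cases p <;> omega
    · have hr3 : 3 ≤ r := by omega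
      have hlt : r < p := by nlinarith
      have h4 : 0 < 3 * p - 4 * r := by nlinarith
      have h5 : 0 < 3 * r - 2 * p := by nlinarith
      obtain ⟨k, hk1, hk2⟩ := ih (3 * p - 4 * r) (3 * r - 2 * p) h4 h5 (by linarith) (by
        linear_combination h)
      refine ⟨k + 1, ?_, ?_⟩
      · rw [show 2 * (k + 1) + 1 = 2 * k + 1 + 2 by ring, (u_succ _).1, ← hk1, ← hk2]
        ring
      · rw [show 2 * (k + 1) + 1 = 2 * k + 1 + 2 by ring, (u_succ _).2, ← hk1, ← hk2]
        ring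

/-- the positive solutions -/
theorem solutions (p r : ℤ) : (0 < p ∧ 0 < r ∧ p ^ 2 - 2 * r ^ 2 = -1) ↔
    ∃ k : ℕ, p = (u (2 * k + 1)).re ∧ r = (u (2 * k + 1)).im := by
  constructor
  · rintro ⟨h1, h2, h3⟩
    exact descent r.toNat p r h1 h2 (Int.self_le_toNat r) h3
  · rintro ⟨k, rfl, rfl⟩
    exact ⟨(u_pos k).1, (u_pos k).2, norm_u _ ⟨k, rfl⟩⟩

end Pool.Agent.T6.H44.NS
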